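import Pool.Agent.H97.ManesGlobal

set_option autoImplicit false

namespace Pool.Agent.H97.Old.IntegerParameter

open Pool.Agent.H97

theorem result (b : ℤ) (c : ℚ) (hb : b ≠ 0) (hc : c ≠ 0) :
    ∀ p ∈ Function.periodicPts
          (fun q : Option ℚ => Option.bind q (fun x : ℚ => if x = 0 then none else some ((b : ℚ) * x + c / x))),
        Function.minimalPeriod
          (fun q : Option ℚ => Option.bind q (fun x : ℚ => if x = 0 then none else some ((b : ℚ) * x + c / x))) p
          ∈ ({1, 2} : Finset ℕ) := by
  intro P hP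
  change P ∈ Function.periodicPts (mf b c) at hP
  change Function.minimalPeriod (mf b c) P ∈ ({1, 2} : Finset ℕ)
  rcases exists_cycle b c P hP with h0 | ⟨x, n, hx, hPx⟩
  · rw [h0]
    have h1 : Function.IsPeriodicPt (mf (b : ℚ) c) 1 none := mf_none (b : ℚ) c
    have h2 := h1.minimalPeriod_dvd
    rw [Nat.dvd_one] at h2
    rw [h2]
    simp
  · rw [hPx]
    apply hx.mem12
    apply hx.integral (by exact_mod_cast hb) hc
    intro p hp
    have : Fact p.Prime := ⟨hp⟩
    exact padicNorm.of_int b

end Pool.Agent.H97.Old.IntegerParameter
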